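import Mathlib

set_option autoImplicit false

namespace Pool.Agent.H.MP_7e9031_nt
open Finset

def Q (p n : ℕ) : ℕ := p ^ Nat.log p (Nat.sqrt n / 2)

def B (x : ℕ) : Prop := Q 2 x ∣ x ∨ Q 3 x ∣ x ∨ Q 5 x ∣ x

lemma Q_pos {p : ℕ} (hp : 0 < p) (n : ℕ) : 0 < Q p n := pow_pos hp _

lemma Q_dvd (p : ℕ) {x n : ℕ} (h : x ≤ n) : Q p x ∣ Q p n :=
  pow_dvd_pow _ (Nat.log_mono_right (Nat.div_le_div_right (Nat.sqrt_le_sqrt h)))

lemma Q_le (p : ℕ) {n : ℕ} (h : 16 ≤ n) : 2 * Q p n ≤ Nat.sqrt n := by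
  have h1 : 4 ≤ Nat.sqrt n := Nat.le_sqrt.mpr (by omega)
  have h2 : Q p n ≤ Nat.sqrt n / 2 := Nat.pow_log_le_self p (by omega)
  omega

lemma Q_ge {p : ℕ} (hp : 1 < p) (hp5 : p ≤ 5) (n : ℕ) : Nat.sqrt n < 10 * Q p n := by
  have h1 : Nat.sqrt n / 2 < p ^ (Nat.log p (Nat.sqrt n / 2) + 1) := Nat.lt_pow_succ_log_self hp _
  rw [pow_succ] at h1
  have h2 : Q p n * p ≤ Q p n * 5 := Nat.mul_le_mul_left _ hp5
  unfold Q at h2 ⊢
  omega

lemma Q_cop {p p' : ℕ} (h : Nat.Coprime p p') (n : ℕ) : Nat.Coprime (Q p n) (Q p' n) :=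
  Nat.Coprime.pow _ _ h

lemma rep {p p' : ℕ} (hp : 0 < p) (hp' : 0 < p') (h : Nat.Coprime p p') {n : ℕ} (hn : 16 ≤ n) :
    ∃ x y, x + y = n ∧ n ≤ 4 * x ∧ n ≤ 4 * y ∧ Q p n ∣ x ∧ Q p' n ∣ y := by
  set a := Q p n
  set b := Q p' n
  have ha : 0 < a := Q_pos hp n
  have hb : 0 < b := Q_pos hp' n
  have h1 := Q_le p hn
  have h2 := Q_le p' hn
  have h3 : Nat.sqrt n * Nat.sqrt n ≤ n := Nat.sqrt_le n
  have h4 : 4 * (a * b) ≤ n := by nlinarith [Nat.mul_le_mul h1 h2]
  have hc : Nat.Coprime a b := Q_cop h n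
  set w := (n + 3) / 4 with hw
  obtain ⟨r, hr1, hr2, hr3⟩ : ∃ r, r ≡ (a - 1) * w [MOD a] ∧ r ≡ n - w [MOD b] ∧ r < a * b :=
    ⟨Nat.chineseRemainder hc ((a - 1) * w) (n - w), (Nat.chineseRemainder hc _ _).2.1,
      (Nat.chineseRemainder hc _ _).2.2, Nat.chineseRemainder_lt_mul hc _ _ ha.ne' hb.ne'⟩
  refine ⟨w + r, n - w - r, by omega, by omega, by omega, ?_, ?_⟩
  · have h5 : w + r ≡ w + (a - 1) * w [MOD a] := Nat.ModEq.add_left _ hr1
    have h6 : w + (a - 1) * w = a * w := by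
      obtain ⟨c, hc'⟩ : ∃ c, a = c + 1 := ⟨a - 1, by omega⟩
      rw [hc']; simp; ring
    rw [h6] at h5
    exact (Nat.modEq_zero_iff_dvd.mp (h5.trans (Nat.modEq_zero_iff_dvd.mpr (dvd_mul_right _ _))))
  · exact (Nat.modEq_iff_dvd' (by omega)).mp hr2

lemma cls (a L q r : ℕ) (hq : 0 < q) :
    ((Ico a (a + L)).filter (fun x => x ≡ r [MOD q])).card ≤ L / q + 1 := by
  have : ((Ico a (a + L)).filter (fun x => x ≡ r [MOD q])).card ≤ (range (L / q + 1)).card := by
    apply card_le_card_of_injOn (fun x => (x - a) / q)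
    · intro x hx
      simp only [coe_filter, mem_Ico, Set.mem_setOf_eq] at hx
      simp only [coe_range, Set.mem_Iio]
      have : (x - a) / q ≤ L / q := Nat.div_le_div_right (by omega)
      omega
    · intro x hx y hy hxy
      simp only [coe_filter, mem_Ico, Set.mem_setOf_eq] at hx hy
      have h1 : x ≡ y [MOD q] := hx.2.trans hy.2.symm
      have h2 : x - a + a ≡ y - a + a [MOD q] := by
        rw [Nat.sub_add_cancel hx.1.1, Nat.sub_add_cancel hy.1.1]; exact h1
      have h3 : (x - a) % q = (y - a) % q := Nat.ModEq.add_right_cancel' a h2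
      have h4 := Nat.div_add_mod (x - a) q
      have h5 := Nat.div_add_mod (y - a) q
      simp only at hxy
      rw [hxy, h3] at h4
      omega
  simpa using this

lemma sqrt_blk {t x : ℕ} (hx : x ∈ Ico (t * t) (t * t + (2 * t + 1))) : Nat.sqrt x = t := by
  rw [mem_Ico] at hx
  symm
  rw [Nat.eq_sqrt]
  constructor
  · exact hx.1
  · nlinarith [hx.2]

lemma blk_mem (x : ℕ) :
    x ∈ Ico (Nat.sqrt x * Nat.sqrt x) (Nat.sqrt x * Nat.sqrt x + (2 * Nat.sqrt x + 1)) := by
  rw [mem_Ico]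
  refine ⟨Nat.sqrt_le x, ?_⟩
  have := Nat.lt_succ_sqrt x
  nlinarith

open Classical in
lemma blk_card (t : ℕ) : ((Ico (t * t) (t * t + (2 * t + 1))).filter B).card ≤ 66 := by
  have key : ∀ p, 1 < p → p ≤ 5 →
      ((Ico (t * t) (t * t + (2 * t + 1))).filter (fun x => Q p x ∣ x)).card ≤ 22 := by
    intro p hp hp5
    have hq := Q_pos (by omega : 0 < p) (t * t)
    have h1 := cls (t * t) (2 * t + 1) (Q p (t * t)) 0 hq
    have h2 := Q_ge hp hp5 (t * t)
    rw [Nat.sqrt_eq] at h2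
    have h3 : (2 * t + 1) / Q p (t * t) ≤ 21 := by
      apply Nat.div_le_of_le_mul
      omega
    have h4 : (Ico (t * t) (t * t + (2 * t + 1))).filter (fun x => Q p x ∣ x) =
        (Ico (t * t) (t * t + (2 * t + 1))).filter (fun x => x ≡ 0 [MOD Q p (t * t)]) := by
      apply filter_congr
      intro x hx
      have : Q p x = Q p (t * t) := by
        unfold Q
        rw [sqrt_blk hx, Nat.sqrt_eq]
      rw [this, Nat.modEq_zero_iff_dvd]
    rw [h4]
    omega
  have h : (Ico (t * t) (t * t + (2 * t + 1))).filter B ⊆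
      (Ico (t * t) (t * t + (2 * t + 1))).filter (fun x => Q 2 x ∣ x) ∪
      ((Ico (t * t) (t * t + (2 * t + 1))).filter (fun x => Q 3 x ∣ x) ∪
      (Ico (t * t) (t * t + (2 * t + 1))).filter (fun x => Q 5 x ∣ x)) := by
    intro x hx
    simp only [mem_filter, mem_union, B] at hx ⊢
    tauto
  have h1 := card_le_card h
  have h2 := card_union_le ((Ico (t * t) (t * t + (2 * t + 1))).filter (fun x => Q 2 x ∣ x))
    ((Ico (t * t) (t * t + (2 * t + 1))).filter (fun x => Q 3 x ∣ x) ∪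
      (Ico (t * t) (t * t + (2 * t + 1))).filter (fun x => Q 5 x ∣ x))
  have h3 := card_union_le ((Ico (t * t) (t * t + (2 * t + 1))).filter (fun x => Q 3 x ∣ x))
      ((Ico (t * t) (t * t + (2 * t + 1))).filter (fun x => Q 5 x ∣ x))
  have h4 := key 2 (by norm_num) (by norm_num)
  have h5 := key 3 (by norm_num) (by norm_num)
  have h6 := key 5 (by norm_num) (by norm_num)
  omega

open Classical in
noncomputable def cnt (S : Set ℕ) (m : ℕ) : ℕ := ((range m).filter (· ∈ S)).card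

open Classical in
lemma base : ∃ A0 : Set ℕ, (∀ x, B x → x ∈ A0) ∧
    ∀ t, 66 * t ≤ cnt A0 (t * t) + 66 * 66 ∧ cnt A0 (t * t) ≤ 66 * t := by
  have h : ∀ t : ℕ, ∃ F : Finset ℕ, (Ico (t * t) (t * t + (2 * t + 1))).filter B ⊆ F ∧
      F ⊆ Ico (t * t) (t * t + (2 * t + 1)) ∧ F.card = min 66 (2 * t + 1) := by
    intro t
    apply exists_subsuperset_card_eq (filter_subset _ _)
    · have h1 := blk_card t
      have h2 : ((Ico (t * t) (t * t + (2 * t + 1))).filter B).card ≤
          (Ico (t * t) (t * t + (2 * t + 1))).card := card_filter_le _ _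
      simp only [Nat.card_Ico] at h2
      omega
    · simp only [Nat.card_Ico]
      omega
  choose F hF1 hF2 hF3 using h
  refine ⟨{x | x ∈ F (Nat.sqrt x)}, fun x hx => hF1 _ (mem_filter.mpr ⟨blk_mem x, hx⟩), ?_⟩
  have step : ∀ t, cnt {x | x ∈ F (Nat.sqrt x)} ((t + 1) * (t + 1)) =
      cnt {x | x ∈ F (Nat.sqrt x)} (t * t) + min 66 (2 * t + 1) := by
    intro t
    unfold cnt
    rw [← hF3 t, ← card_union_of_disjoint]
    · congr 1
      ext x
      simp only [mem_filter, mem_range, Set.mem_setOf_eq, mem_union]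
      constructor
      · rintro ⟨h1, h2⟩
        by_cases h3 : x < t * t
        · exact Or.inl ⟨h3, h2⟩
        · right
          have : Nat.sqrt x = t := sqrt_blk (mem_Ico.mpr ⟨by omega, by nlinarith⟩)
          rwa [this] at h2
      · rintro (⟨h1, h2⟩ | h1)
        · exact ⟨by nlinarith, h2⟩
        · have h2 := hF2 t h1
          have h3 := sqrt_blk h2
          rw [mem_Ico] at h2
          exact ⟨by nlinarith [h2.2], by rwa [h3]⟩
    · rw [disjoint_left]
      intro x hx hx'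
      have h2 := hF2 t hx'
      simp only [mem_filter, mem_range, mem_Ico] at hx h2
      omega
  have main : ∀ t, 66 * t ≤ cnt {x | x ∈ F (Nat.sqrt x)} (t * t) + 66 * min t 66 ∧
      cnt {x | x ∈ F (Nat.sqrt x)} (t * t) ≤ 66 * t := by
    intro t
    induction t with
    | zero => simp [cnt]
    | succ t ih => rw [step]; omega
  intro t
  have := main t
  omega

open Classical in
lemma cnt_le_of (S S' : Set ℕ) (M : Finset ℕ) (h : ∀ m, m ∉ M → m ∈ S' → m ∈ S) (x : ℕ) :
    cnt S' x ≤ cnt S x + M.card := by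
  unfold cnt
  refine le_trans (card_le_card ?_) (card_union_le _ _)
  intro m hm
  simp only [mem_filter, mem_union] at hm ⊢
  by_cases h1 : m ∈ M
  · exact Or.inr h1
  · exact Or.inl ⟨hm.1, h m h1 hm.2⟩

open Classical in
lemma cnt_mono (S : Set ℕ) {x y : ℕ} (h : x ≤ y) : cnt S x ≤ cnt S y :=
  card_le_card (filter_subset_filter _ (range_subset_range.mpr h))

open Classical in
lemma cnt_congr (S S' : Set ℕ) (x : ℕ) (h : ∀ m, m < x → (m ∈ S ↔ m ∈ S')) :
    cnt S x = cnt S' x := by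
  unfold cnt
  congr 1
  apply filter_congr
  intro m hm
  exact h m (mem_range.mp hm)

/-- every representation of `N` uses `a` -/
def U (S : Set ℕ) (N a : ℕ) : Prop := ∀ x ∈ S, ∀ y ∈ S, x + y = N → x = a ∨ y = a

open Classical in
lemma fix (N a L W : ℕ) (K : Finset ℕ) : ∀ S : Set ℕ, U S N a →
    (∀ n ∈ K, n ≠ N ∧ 2 * L + W ≤ n) → 2 * (cnt S (N + 1) + 2 * K.card) + 2 < W →
    ∃ F : Finset ℕ, F.card ≤ 2 * K.card ∧ (∀ m ∈ F, L ≤ m) ∧ U (S ∪ F) N a ∧
      ∀ n ∈ K, ∃ x ∈ S ∪ (F : Set ℕ), ∃ y ∈ S ∪ (F : Set ℕ), x + y = n := by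
  induction K using Finset.induction_on with
  | empty => intro S hU _ _; exact ⟨∅, by simp, by simp, by simpa using hU, by simp⟩
  | insert n K hn ih =>
    intro S hU hK hW
    rw [card_insert_of_notMem hn] at hW
    obtain ⟨hnN, hnL⟩ := hK n (mem_insert_self _ _)
    set T := (range (N + 1)).filter (· ∈ S) with hT
    have hTc : T.card = cnt S (N + 1) := rfl
    have hbad : (T.image (fun s => N - s) ∪ T.image (fun s => n + s - N) ∪ {N / 2, n - N / 2}).card
        < (Ico L (L + W)).card := by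
      have h1 := card_union_le (T.image (fun s => N - s) ∪ T.image (fun s => n + s - N))
        ({N / 2, n - N / 2} : Finset ℕ)
      have h2 := card_union_le (T.image (fun s => N - s)) (T.image (fun s => n + s - N))
      have h3 : (T.image (fun s => N - s)).card ≤ T.card := card_image_le
      have h4 : (T.image (fun s => n + s - N)).card ≤ T.card := card_image_le
      have h5 : ({N / 2, n - N / 2} : Finset ℕ).card ≤ 2 := card_le_two
      simp only [Nat.card_Ico]
      omega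
    obtain ⟨f, hf, hfb⟩ := exists_mem_notMem_of_card_lt_card hbad
    rw [mem_Ico] at hf
    simp only [mem_union, mem_image, mem_insert, mem_singleton, not_or, not_exists, not_and] at hfb
    obtain ⟨⟨hb1, hb2⟩, hb3, hb4⟩ := hfb
    have hmT : ∀ s ∈ S, s ≤ N → s ∈ T := fun s hs hsN =>
      mem_filter.mpr ⟨mem_range.mpr (by omega), hs⟩
    have hU2 : U (S ∪ ({f, n - f} : Finset ℕ)) N a := by
      intro x hx y hy hxy
      simp only [coe_insert, coe_singleton, Set.mem_union, Set.mem_insert_iff,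
        Set.mem_singleton_iff] at hx hy
      rcases hx with hx | hx | hx <;> rcases hy with hy | hy | hy
      · exact hU x hx y hy hxy
      · exact absurd (by omega) (hb1 x (hmT x hx (by omega)))
      · exact absurd (by omega) (hb2 x (hmT x hx (by omega)))
      · exact absurd (by omega) (hb1 y (hmT y hy (by omega)))
      · exact absurd (by omega) hb3
      · exact absurd (by omega) hnN
      · exact absurd (by omega) (hb2 y (hmT y hy (by omega)))
      · exact absurd (by omega) hnN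
      · exact absurd (by omega) hb4
    have hc2 : cnt (S ∪ ({f, n - f} : Finset ℕ)) (N + 1) ≤ cnt S (N + 1) + 2 := by
      have h1 := cnt_le_of S (S ∪ ({f, n - f} : Finset ℕ)) {f, n - f}
        (fun m hm hm' => hm'.resolve_right hm) (N + 1)
      have h5 : ({f, n - f} : Finset ℕ).card ≤ 2 := card_le_two
      omega
    obtain ⟨F, hF1, hF2, hF3, hF4⟩ := ih (S ∪ ({f, n - f} : Finset ℕ)) hU2
      (fun m hm => hK m (mem_insert_of_mem hm)) (by omega)
    have he : S ∪ (({f, n - f} ∪ F : Finset ℕ) : Set ℕ) =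
        S ∪ ({f, n - f} : Finset ℕ) ∪ (F : Set ℕ) := by
      rw [coe_union, Set.union_assoc]
    refine ⟨{f, n - f} ∪ F, ?_, ?_, ?_, ?_⟩
    · have h1 := card_union_le ({f, n - f} : Finset ℕ) F
      have h5 : ({f, n - f} : Finset ℕ).card ≤ 2 := card_le_two
      rw [card_insert_of_notMem hn]
      omega
    · intro m hm
      simp only [mem_union, mem_insert, mem_singleton] at hm
      rcases hm with (hm | hm) | hm
      · omega
      · omega
      · exact hF2 m hm
    · rw [he]; exact hF3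
    · intro m hm
      rw [he]
      rcases mem_insert.mp hm with hm | hm
      · refine ⟨f, by simp, n - f, by simp, by omega⟩
      · exact hF4 m hm

open Classical in
lemma two_cls (E : Finset ℕ) (X q q' : ℕ) (hq : 0 < q) (hq' : 0 < q') (hc : Nat.Coprime q q')
    (hX : X ≤ q * q' * 6400) :
    ((range X).filter (fun n => (∃ e ∈ E, n ≡ e [MOD q]) ∧ ∃ e ∈ E, n ≡ e [MOD q'])).card ≤
      E.card * E.card * 6401 := by
  have h : (range X).filter (fun n => (∃ e ∈ E, n ≡ e [MOD q]) ∧ ∃ e ∈ E, n ≡ e [MOD q']) ⊆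
      (E ×ˢ E).biUnion (fun z => (Ico 0 (0 + X)).filter
        (fun n => n ≡ (Nat.chineseRemainder hc z.1 z.2 : ℕ) [MOD q * q'])) := by
    intro n hn
    simp only [mem_filter, mem_range] at hn
    obtain ⟨h1, ⟨e, he, h2⟩, ⟨e', he', h3⟩⟩ := hn
    simp only [mem_biUnion, mem_product, mem_filter, mem_Ico]
    refine ⟨(e, e'), ⟨he, he'⟩, ⟨by omega, by omega⟩, ?_⟩
    rw [← Nat.modEq_and_modEq_iff_modEq_mul hc]
    exact ⟨h2.trans (Nat.chineseRemainder hc e e').2.1.symm,
      h3.trans (Nat.chineseRemainder hc e e').2.2.symm⟩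
  refine le_trans (card_le_card h) (le_trans (card_biUnion_le_card_mul _ _ 6401 ?_) ?_)
  · intro z _
    have h1 := cls 0 X (q * q') (Nat.chineseRemainder hc z.1 z.2 : ℕ) (Nat.mul_pos hq hq')
    have h2 : X / (q * q') ≤ 6400 := Nat.div_le_of_le_mul hX
    omega
  · rw [card_product]

end Pool.Agent.H.MP_7e9031_nt
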