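import Pool.Agent.H.MP_7e9031_nt.A

set_option autoImplicit false

namespace Pool.Agent.H.MP_7e9031_nt
open Finset

def Bas (S : Set ℕ) : Prop := ∀ n, 16 ≤ n → ∃ x ∈ S, ∃ y ∈ S, x + y = n

open Classical in
lemma killed (A0 S : Set ℕ) (hB : ∀ x, B x → x ∈ A0) (L t : ℕ) (E : Finset ℕ)
    (hS : ∀ m, L ≤ m → (m ∈ S ↔ m ∈ A0)) (ht : 4 * L + 16 ≤ t * t)
    (hE : ∀ e ∈ E, e < 4 * (t * t)) :
    ∃ K : Finset ℕ, K.card ≤ 3 * (E.card * E.card * 6401) ∧
      ∀ n, t * t ≤ n → n ∈ K ∨ ∃ x ∈ S, ∃ y ∈ S, x ∉ E ∧ y ∉ E ∧ x + y = n := by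
  set P : ℕ → ℕ → Prop := fun p n => ∃ e ∈ E, n ≡ e [MOD Q p (t * t)] with hP
  have key : ∀ p p', (p = 2 ∨ p = 3 ∨ p = 5) → (p' = 2 ∨ p' = 3 ∨ p' = 5) → Nat.Coprime p p' →
      ∀ n, t * t ≤ n → (∃ x ∈ S, ∃ y ∈ S, x ∉ E ∧ y ∉ E ∧ x + y = n) ∨
        (n < 16 * (t * t) ∧ (P p n ∨ P p' n)) := by
    intro p p' hp hp' hc n hn
    obtain ⟨x, y, h1, h2, h3, h4, h5⟩ := rep (by omega) (by omega) hc (by omega : 16 ≤ n)
    have hx : x ∈ S := by
      rw [hS x (by omega)]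
      apply hB
      have := (Q_dvd p (by omega : x ≤ n)).trans h4
      rcases hp with rfl | rfl | rfl
      · exact Or.inl this
      · exact Or.inr (Or.inl this)
      · exact Or.inr (Or.inr this)
    have hy : y ∈ S := by
      rw [hS y (by omega)]
      apply hB
      have := (Q_dvd p' (by omega : y ≤ n)).trans h5
      rcases hp' with rfl | rfl | rfl
      · exact Or.inl this
      · exact Or.inr (Or.inl this)
      · exact Or.inr (Or.inr this)
    by_cases hxE : x ∈ E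
    · right
      refine ⟨by have := hE x hxE; omega, Or.inr ⟨x, hxE, ?_⟩⟩
      have h6 := (Q_dvd p' hn).trans h5
      rw [← h1]
      exact (Nat.modEq_iff_dvd' (by omega)).mpr (by simpa using h6) |>.symm
    by_cases hyE : y ∈ E
    · right
      refine ⟨by have := hE y hyE; omega, Or.inl ⟨y, hyE, ?_⟩⟩
      have h6 := (Q_dvd p hn).trans h4
      rw [← h1]
      exact (Nat.modEq_iff_dvd' (by omega)).mpr (by simpa using h6) |>.symm
    · exact Or.inl ⟨x, hx, y, hy, hxE, hyE, h1⟩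
  have cardk : ∀ p p', (p = 2 ∨ p = 3 ∨ p = 5) → (p' = 2 ∨ p' = 3 ∨ p' = 5) → Nat.Coprime p p' →
      ((range (16 * (t * t))).filter (fun n => P p n ∧ P p' n)).card ≤ E.card * E.card * 6401 := by
    intro p p' hp hp' hc
    apply two_cls E _ _ _ (Q_pos (by omega) _) (Q_pos (by omega) _) (Q_cop hc _)
    have h1 := Q_ge (p := p) (by omega) (by omega) (t * t)
    have h2 := Q_ge (p := p') (by omega) (by omega) (t * t)
    rw [Nat.sqrt_eq] at h1 h2
    have h3 := Nat.mul_le_mul h1.le h2.le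
    nlinarith
  refine ⟨(range (16 * (t * t))).filter (fun n => P 2 n ∧ P 3 n) ∪
    ((range (16 * (t * t))).filter (fun n => P 2 n ∧ P 5 n) ∪
    (range (16 * (t * t))).filter (fun n => P 3 n ∧ P 5 n)), ?_, ?_⟩
  · have h1 := cardk 2 3 (by simp) (by simp) (by norm_num)
    have h2 := cardk 2 5 (by simp) (by simp) (by norm_num)
    have h3 := cardk 3 5 (by simp) (by simp) (by norm_num)
    refine le_trans (card_union_le _ _) (le_trans (Nat.add_le_add_left (card_union_le _ _) _) ?_)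
    omega
  · intro n hn
    have h1 := key 2 3 (by simp) (by simp) (by norm_num) n hn
    have h2 := key 2 5 (by simp) (by simp) (by norm_num) n hn
    have h3 := key 3 5 (by simp) (by simp) (by norm_num) n hn
    simp only [mem_union, mem_filter, mem_range]
    rcases h1 with h1 | ⟨h0, h1⟩
    · exact Or.inr h1
    rcases h2 with h2 | ⟨-, h2⟩
    · exact Or.inr h2
    rcases h3 with h3 | ⟨-, h3⟩
    · exact Or.inr h3
    left
    rcases h1 with h1 | h1
    · rcases h3 with h3 | h3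
      · exact Or.inl ⟨h0, h1, h3⟩
      · exact Or.inr (Or.inl ⟨h0, h1, h3⟩)
    · rcases h2 with h2 | h2
      · exact Or.inl ⟨h0, h2, h1⟩
      · exact Or.inr (Or.inr ⟨h0, h1, h2⟩)

def kap : ℕ := 3 * (8845 * 8845 * 6401)

def CC : ℕ := 8845 + 1 + 2 * kap

open Classical in
lemma stage (A0 : Set ℕ) (hB : ∀ x, B x → x ∈ A0) (hc : ∀ t, cnt A0 (t * t) ≤ 66 * t)
    (S : Set ℕ) (L a : ℕ) (hb : Bas S) (hS : ∀ m, L ≤ m → (m ∈ S ↔ m ∈ A0))
    (haL : a < L) (ha : a ∈ S) :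
    ∃ (S' : Set ℕ) (M : Finset ℕ) (N : ℕ), Bas S' ∧ M.card ≤ CC ∧ (∀ m ∈ M, L ≤ m) ∧
      (∀ m, m ∉ M → (m ∈ S' ↔ m ∈ S)) ∧ L ≤ N ∧ U S' N a := by
  obtain ⟨κ, hκ⟩ : ∃ κ, κ = kap := ⟨_, rfl⟩
  obtain ⟨t, ht⟩ : ∃ t, t = 4 * L + 4 * κ + 300 := ⟨_, rfl⟩
  have htt : t * 300 ≤ t * t := Nat.mul_le_mul_left _ (by omega)
  set T := (range (4 * (t * t))).filter (· ∈ S) with hT
  have hTc : T.card ≤ 133 * t := by
    have h1 := cnt_le_of A0 S (range L) (fun m hm hm' => (hS m (by simpa using hm)).mp hm')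
      (4 * (t * t))
    have h2 := hc (2 * t)
    have h3 : 2 * t * (2 * t) = 4 * (t * t) := by ring
    rw [h3] at h2
    have h4 : T.card = cnt S (4 * (t * t)) := rfl
    simp only [card_range] at h1
    omega
  obtain ⟨N, hN, hNc⟩ := exists_card_fiber_le_of_card_le_mul (s := T ×ˢ T)
    (t := Ico (2 * (t * t)) (4 * (t * t))) (f := fun z => z.1 + z.2) (n := 8845)
    (by rw [nonempty_Ico]; omega) (by
      rw [card_product, Nat.card_Ico]
      have h1 := Nat.mul_le_mul hTc hTc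
      have h2 : 133 * t * (133 * t) = 17689 * (t * t) := by ring
      omega)
  rw [mem_Ico] at hN
  set E := T.filter (fun m => N ≤ 2 * m ∧ m ≤ N ∧ N - m ∈ S ∧ N - m ≠ a) with hE
  have hEc : E.card ≤ 8845 := by
    refine le_trans ?_ hNc
    apply card_le_card_of_injOn (fun m => (m, N - m))
    · intro m hm
      simp only [hE, hT, coe_filter, mem_filter, mem_range, Set.mem_setOf_eq, mem_product] at hm ⊢
      exact ⟨⟨hm.1, by omega, hm.2.2.2.1⟩, by omega⟩
    · intro x _ y _ hxy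
      exact congrArg Prod.fst hxy
  have hEm : ∀ e ∈ E, e < 4 * (t * t) ∧ N ≤ 2 * e := by
    intro e he
    simp only [hE, hT, mem_filter, mem_range] at he
    exact ⟨he.1.1, he.2.1⟩
  set S1 : Set ℕ := {m | (m ∈ S ∧ m ∉ E) ∨ m = N - a} with hS1
  have hU1 : U S1 N a := by
    have aux : ∀ x ∈ S, ∀ y ∈ S, x ∉ E → x + y = N → y ≤ x → y = a := by
      intro x hx y hy hxE hxy hle
      by_contra hne
      apply hxE
      simp only [hE, hT, mem_filter, mem_range]
      have : N - x = y := by omega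
      rw [this]
      exact ⟨⟨by omega, hx⟩, by omega, by omega, hy, hne⟩
    intro x hx y hy hxy
    rcases hx with hx | hx
    · rcases hy with hy | hy
      · rcases le_total x y with h | h
        · exact Or.inl (aux y hy.1 x hx.1 hy.2 (by omega) h)
        · exact Or.inr (aux x hx.1 y hy.1 hx.2 hxy h)
      · left; omega
    · right; omega
  obtain ⟨K0, hK0c, hK0⟩ := killed A0 S hB L t E hS (by omega) (fun e he => (hEm e he).1)
  have hK0c' : K0.card ≤ κ := by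
    rw [hκ, kap]
    exact le_trans hK0c (Nat.mul_le_mul_left _ (Nat.mul_le_mul_right _ (Nat.mul_le_mul hEc hEc)))
  set K := K0.filter (fun n => n ≠ N ∧ t * t ≤ n) with hK
  have hKc : K.card ≤ κ := le_trans (card_filter_le _ _) hK0c'
  have hc1 : cnt S1 (N + 1) ≤ 133 * t + 1 := by
    have h1 := cnt_le_of S S1 {N - a} (fun m hm hm' => by
      rcases hm' with h | h
      · exact h.1
      · exact absurd (mem_singleton.mpr h) hm) (N + 1)
    have h2 := cnt_mono S (by omega : N + 1 ≤ 4 * (t * t))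
    have h4 : T.card = cnt S (4 * (t * t)) := rfl
    simp only [card_singleton] at h1
    omega
  obtain ⟨F, hF1, hF2, hF3, hF4⟩ := fix N a L (t * t - 2 * L) K S1 hU1 (by
    intro n hn
    simp only [hK, mem_filter] at hn
    exact ⟨hn.2.1, by omega⟩) (by omega)
  refine ⟨S1 ∪ F, E ∪ {N - a} ∪ F, N, ?_, ?_, ?_, ?_, by omega, hF3⟩
  · intro n hn
    have sub : ∀ x ∈ S, x ∉ E → x ∈ S1 ∪ (F : Set ℕ) := fun x hx hxE => Or.inl (Or.inl ⟨hx, hxE⟩)
    by_cases h1 : t * t ≤ n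
    · by_cases h2 : n = N
      · refine ⟨a, sub a ha (fun h => ?_), N - a, Or.inl (Or.inr rfl), by omega⟩
        have := (hEm a h).2
        omega
      · rcases hK0 n h1 with h | ⟨x, hx, y, hy, h3, h4, h5⟩
        · exact hF4 n (mem_filter.mpr ⟨h, h2, h1⟩)
        · exact ⟨x, sub x hx h3, y, sub y hy h4, h5⟩
    · obtain ⟨x, hx, y, hy, h5⟩ := hb n hn
      refine ⟨x, sub x hx (fun h => ?_), y, sub y hy (fun h => ?_), h5⟩
      · have := (hEm x h).2
        omega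
      · have := (hEm y h).2
        omega
  · have h1 := card_union_le (E ∪ {N - a}) F
    have h2 := card_union_le E {N - a}
    rw [card_singleton] at h2
    rw [CC, ← hκ]
    omega
  · intro m hm
    simp only [mem_union, mem_singleton] at hm
    rcases hm with (hm | hm) | hm
    · have := (hEm m hm).2
      omega
    · omega
    · exact hF2 m hm
  · intro m hm
    simp only [mem_union, mem_singleton, not_or] at hm
    simp only [hS1, Set.mem_union, Set.mem_setOf_eq, mem_coe]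
    tauto

def Inv (A0 : Set ℕ) (s : Set ℕ × ℕ) : Prop :=
  Bas s.1 ∧ ∀ m, s.2 ≤ m → (m ∈ s.1 ↔ m ∈ A0)

def Rel (j : ℕ) (s s' : Set ℕ × ℕ) : Prop :=
  s.2 ≤ s'.2 ∧ (j + 1) ^ 4 < s'.2 ∧
  (∃ M : Finset ℕ, M.card ≤ CC ∧ (∀ m ∈ M, s.2 ≤ m) ∧ ∀ m, m ∉ M → (m ∈ s'.1 ↔ m ∈ s.1)) ∧
  ((Nat.unpair j).1 < s.2 → (Nat.unpair j).1 ∈ s.1 →
    ∃ N, s.2 ≤ N ∧ N < s'.2 ∧ U s'.1 N (Nat.unpair j).1)

lemma stage2 (A0 : Set ℕ) (hB : ∀ x, B x → x ∈ A0) (hc : ∀ t, cnt A0 (t * t) ≤ 66 * t)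
    (j : ℕ) (s : {s // Inv A0 s}) : ∃ s' : {s // Inv A0 s}, Rel j s.1 s'.1 := by
  obtain ⟨⟨S, L⟩, hb, hS⟩ := s
  by_cases h : (Nat.unpair j).1 < L ∧ (Nat.unpair j).1 ∈ S
  · obtain ⟨S', M, N, h1, h2, h3, h4, h5, h6⟩ := stage A0 hB hc S L _ hb hS h.1 h.2
    refine ⟨⟨(S', L + (j + 1) ^ 4 + N + M.sup id + 1), h1, ?_⟩, ?_, ?_, ⟨M, h2, h3, h4⟩, ?_⟩
    · intro m hm
      simp only at hm ⊢
      rw [h4 m, hS m (by simp only; omega)]
      intro hM
      have : id m ≤ M.sup id := le_sup hM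
      simp only [id] at this
      omega
    · simp only; omega
    · simp only; omega
    · intro _ _
      exact ⟨N, h5, by simp only; omega, h6⟩
  · refine ⟨⟨(S, L + (j + 1) ^ 4 + 1), hb, ?_⟩, ?_, ?_, ⟨∅, by simp, by simp, by simp⟩, ?_⟩
    · intro m hm
      exact hS m (by simp only at hm ⊢; omega)
    · simp only; omega
    · simp only; omega
    · intro h1 h2
      exact absurd ⟨h1, h2⟩ h

lemma construct : ∃ A : Set ℕ, Bas A ∧ (∀ a ∈ A, ∀ i, ∃ N, i ≤ N ∧ U A N a) ∧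
    ∀ t, 66 * t ≤ cnt A (t * t) + 66 * 66 + CC * (Nat.sqrt t + 1) ∧
      cnt A (t * t) ≤ 66 * t + CC * (Nat.sqrt t + 1) := by
  obtain ⟨A0, hB, hc⟩ := base
  have h0 : Inv A0 (A0, 1) := by
    refine ⟨?_, fun m _ => Iff.rfl⟩
    intro n hn
    obtain ⟨x, y, h1, h2, h3, h4, h5⟩ :=
      rep (p := 2) (p' := 3) (by norm_num) (by norm_num) (by norm_num) hn
    exact ⟨x, hB x (Or.inl ((Q_dvd 2 (by omega : x ≤ n)).trans h4)), y,
      hB y (Or.inr (Or.inl ((Q_dvd 3 (by omega : y ≤ n)).trans h5))), h1⟩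
  choose f hf using stage2 A0 hB (fun t => (hc t).2)
  let st : ℕ → {s // Inv A0 s} := fun j => Nat.rec ⟨(A0, 1), h0⟩ f j
  set S : ℕ → Set ℕ := fun j => (st j).1.1 with hS
  set L : ℕ → ℕ := fun j => (st j).1.2 with hL
  have hR : ∀ j, Rel j (st j).1 (st (j + 1)).1 := fun j => hf j (st j)
  have hL4 : ∀ j, j ^ 4 < L j := by
    intro j
    cases j with
    | zero => show 0 ^ 4 < 1; norm_num
    | succ j => exact (hR j).2.1
  have hLj : ∀ j, j < L j := fun j => lt_of_le_of_lt (Nat.le_self_pow (by norm_num) j) (hL4 j)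
  have hmono : Monotone L := monotone_nat_of_le_succ (fun j => (hR j).1)
  have hstab : ∀ i j, i ≤ j → ∀ m, m < L i → (m ∈ S j ↔ m ∈ S i) := by
    intro i j hij m hm
    induction j, hij using Nat.le_induction with
    | base => exact Iff.rfl
    | succ j hij ih =>
      obtain ⟨M, _, h2, h3⟩ := (hR j).2.2.1
      rw [← ih]
      apply h3
      intro hM
      have h4 : L j ≤ m := h2 m hM
      have := hmono hij
      omega
  have hA : ∀ j m, m < L j → (m ∈ {m | m ∈ S m} ↔ m ∈ S j) := by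
    intro j m hm
    simp only [Set.mem_setOf_eq]
    rw [← hstab j (max j m) (le_max_left _ _) m hm,
      ← hstab m (max j m) (le_max_right _ _) m (hLj m)]
  have hcnt : ∀ j x, cnt (S j) x ≤ cnt A0 x + CC * j ∧ cnt A0 x ≤ cnt (S j) x + CC * j := by
    intro j x
    induction j with
    | zero => exact ⟨le_rfl, le_rfl⟩
    | succ j ih =>
      obtain ⟨M, h1, _, h3⟩ := (hR j).2.2.1
      have h4 := cnt_le_of (S j) (S (j + 1)) M (fun m hm => (h3 m hm).mp) x
      have h5 := cnt_le_of (S (j + 1)) (S j) M (fun m hm => (h3 m hm).mpr) x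
      rw [Nat.mul_succ]
      omega
  refine ⟨{m | m ∈ S m}, ?_, ?_, ?_⟩
  · intro n hn
    obtain ⟨x, hx, y, hy, h⟩ := (st n).2.1 n hn
    have := hLj n
    exact ⟨x, (hA n x (by omega)).mpr hx, y, (hA n y (by omega)).mpr hy, h⟩
  · intro a ha i
    have h1 : a ≤ Nat.pair a i := Nat.left_le_pair a i
    have h2 : i ≤ Nat.pair a i := Nat.right_le_pair a i
    have h3 := hLj (Nat.pair a i)
    have h4 := (hR (Nat.pair a i)).2.2.2
    rw [Nat.unpair_pair] at h4
    obtain ⟨N, h5, h6, h7⟩ := h4 (lt_of_le_of_lt h1 h3)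
      ((hA (Nat.pair a i) a (lt_of_le_of_lt h1 h3)).mp ha)
    refine ⟨N, le_trans h2 (le_trans h3.le h5), ?_⟩
    intro x hx y hy hxy
    have h8 : N < L (Nat.pair a i + 1) := h6
    exact h7 x ((hA (Nat.pair a i + 1) x (by omega)).mp hx) y
      ((hA (Nat.pair a i + 1) y (by omega)).mp hy) hxy
  · intro t
    have h1 : t * t < L (Nat.sqrt t + 1) := by
      have h2 := hL4 (Nat.sqrt t + 1)
      have h3 := Nat.lt_succ_sqrt t
      have h4 := Nat.mul_le_mul h3.le h3.le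
      have h5 : (Nat.sqrt t + 1) ^ 4 =
        (Nat.sqrt t).succ * (Nat.sqrt t).succ * ((Nat.sqrt t).succ * (Nat.sqrt t).succ) := by
        simp only [Nat.succ_eq_add_one]; ring
      omega
    rw [cnt_congr _ (S (Nat.sqrt t + 1)) (t * t) (fun m hm => hA (Nat.sqrt t + 1) m (by omega))]
    have h2 := hcnt (Nat.sqrt t + 1) (t * t)
    have h3 := hc t
    omega

end Pool.Agent.H.MP_7e9031_nt
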