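import Pool.Agent.H.MP_7e9031_nt.B

set_option autoImplicit false

namespace Pool.Agent.H.MP_7e9031_nt
open Filter Topology

lemma sqrt_top : Tendsto Nat.sqrt atTop atTop := by
  rw [tendsto_atTop_atTop]
  intro b
  exact ⟨b * b, fun a ha => Nat.le_sqrt.mpr ha⟩

lemma sqrt_div : Tendsto (fun t : ℕ => (Nat.sqrt t : ℝ) / t) atTop (𝓝 0) := by
  have h1 : Tendsto (fun t : ℕ => ((Nat.sqrt t : ℝ))⁻¹) atTop (𝓝 0) :=
    tendsto_inv_atTop_zero.comp (tendsto_natCast_atTop_atTop.comp sqrt_top)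
  refine squeeze_zero' (Eventually.of_forall fun t => by positivity) ?_ h1
  filter_upwards [eventually_ge_atTop 1] with t ht
  have h2 : 0 < Nat.sqrt t := Nat.sqrt_pos.mpr ht
  have h3 : (0 : ℝ) < Nat.sqrt t := by exact_mod_cast h2
  have h4 : (0 : ℝ) < t := by exact_mod_cast ht
  have h5 : (Nat.sqrt t : ℝ) * Nat.sqrt t ≤ t := by exact_mod_cast Nat.sqrt_le t
  rw [inv_eq_one_div, div_le_div_iff₀ h4 h3]
  linarith

lemma err (c d : ℝ) : Tendsto (fun t : ℕ => 66 + (c * Nat.sqrt t + d) / t) atTop (𝓝 66) := by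
  have h1 : Tendsto (fun t : ℕ => ((t : ℝ))⁻¹) atTop (𝓝 0) :=
    tendsto_inv_atTop_zero.comp tendsto_natCast_atTop_atTop
  have h2 := ((sqrt_div.const_mul c).add (h1.const_mul d)).const_add 66
  simp only [mul_zero, add_zero] at h2
  refine h2.congr (fun t => ?_)
  ring

lemma asym (A : Set ℕ) (C : ℕ)
    (h : ∀ t, 66 * t ≤ cnt A (t * t) + 66 * 66 + C * (Nat.sqrt t + 1) ∧
      cnt A (t * t) ≤ 66 * t + C * (Nat.sqrt t + 1)) (hinf : A.Infinite) :
    Tendsto (fun k : ℕ => (Nat.nth (· ∈ A) k : ℝ) / ((k : ℝ) + 1) ^ 2) atTop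
      (𝓝 (1 / 66 ^ 2)) := by
  classical
  have hcc : ∀ x, cnt A x = Nat.count (· ∈ A) x := by
    intro x
    rw [Nat.count_eq_card_filter_range]
    unfold cnt
    congr
  set τ : ℕ → ℕ := fun k => Nat.sqrt (Nat.nth (· ∈ A) k) with hτ
  have hτt : Tendsto τ atTop atTop :=
    sqrt_top.comp (Nat.nth_strictMono (p := (· ∈ A)) hinf).tendsto_atTop
  have hlow : ∀ k, 66 * τ k ≤ k + 66 * 66 + C * (Nat.sqrt (τ k) + 1) := by
    intro k
    have h1 := (h (τ k)).1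
    have h2 := cnt_mono A (Nat.sqrt_le (Nat.nth (· ∈ A) k))
    rw [hcc (Nat.nth (· ∈ A) k), Nat.count_nth_of_infinite (p := (· ∈ A)) hinf] at h2
    exact le_trans h1 (by simp only [hτ]; omega)
  have hup : ∀ k, k + 1 ≤ 66 * τ k + 66 + C * (Nat.sqrt (τ k) + 2) := by
    intro k
    have h1 := (h (τ k + 1)).2
    have h2 := cnt_mono A (Nat.succ_le_of_lt (Nat.lt_succ_sqrt (Nat.nth (· ∈ A) k)))
    rw [hcc (Nat.succ _), Nat.succ_eq_add_one,
      Nat.count_nth_succ_of_infinite (p := (· ∈ A)) hinf] at h2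
    have h3 : Nat.sqrt (τ k + 1) ≤ Nat.sqrt (τ k) + 1 := Nat.sqrt_succ_le_succ_sqrt _
    have h4 : C * (Nat.sqrt (τ k + 1) + 1) ≤ C * (Nat.sqrt (τ k) + 2) :=
      Nat.mul_le_mul_left _ (by omega)
    have h5 : k + 1 ≤ cnt A ((τ k + 1) * (τ k + 1)) := h2
    omega
  have hpos : ∀ᶠ k in atTop, (0 : ℝ) < τ k := by
    filter_upwards [hτt.eventually_ge_atTop 1] with k hk
    exact_mod_cast hk
  have lim1 : Tendsto (fun k : ℕ => ((k : ℝ) + 1) / τ k) atTop (𝓝 66) := by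
    refine tendsto_of_tendsto_of_tendsto_of_le_of_le' ((err (-C) (-(66 * 66 + C))).comp hτt)
      ((err C (66 + 2 * C)).comp hτt) ?_ ?_
    · filter_upwards [hpos] with k hk
      have h1 : (66 : ℝ) * τ k ≤ k + 66 * 66 + C * (Nat.sqrt (τ k) + 1) := by
        exact_mod_cast hlow k
      simp only [Function.comp]
      rw [add_div' _ _ _ hk.ne', div_le_div_iff_of_pos_right hk]
      linarith
    · filter_upwards [hpos] with k hk
      have h1 : (k : ℝ) + 1 ≤ 66 * τ k + 66 + C * (Nat.sqrt (τ k) + 2) := by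
        exact_mod_cast hup k
      simp only [Function.comp]
      rw [add_div' _ _ _ hk.ne', div_le_div_iff_of_pos_right hk]
      linarith
  have lim2 : Tendsto (fun k : ℕ => (Nat.nth (· ∈ A) k : ℝ) / (τ k : ℝ) ^ 2) atTop (𝓝 1) := by
    have h1 : Tendsto (fun k : ℕ => ((τ k : ℝ))⁻¹) atTop (𝓝 0) :=
      tendsto_inv_atTop_zero.comp (tendsto_natCast_atTop_atTop.comp hτt)
    have h2 := (h1.const_add 1).pow 2
    simp only [add_zero, one_pow] at h2
    refine tendsto_of_tendsto_of_tendsto_of_le_of_le' tendsto_const_nhds h2 ?_ ?_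
    · filter_upwards [hpos] with k hk
      have h3 : (τ k : ℝ) * τ k ≤ Nat.nth (· ∈ A) k := by
        exact_mod_cast Nat.sqrt_le (Nat.nth (· ∈ A) k)
      rw [le_div_iff₀ (by positivity)]
      linarith
    · filter_upwards [hpos] with k hk
      have h3 : (Nat.nth (· ∈ A) k : ℝ) ≤ ((τ k : ℝ) + 1) * (τ k + 1) := by
        exact_mod_cast (Nat.lt_succ_sqrt (Nat.nth (· ∈ A) k)).le
      rw [div_le_iff₀ (by positivity)]
      have h4 : (1 + (τ k : ℝ)⁻¹) ^ 2 * (τ k : ℝ) ^ 2 = ((τ k : ℝ) + 1) * (τ k + 1) := by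
        field_simp
      linarith
  have lim3 := lim2.div (lim1.pow 2) (by norm_num)
  refine lim3.congr' ?_
  filter_upwards [hpos] with k hk
  simp only [Pi.div_apply]
  field_simp

theorem main : ∃ A : Set ℕ,
      (∃ N : ℕ, ∀ n ≥ N, ∃ a ∈ A, ∃ b ∈ A, a + b = n) ∧
      (∀ B : Set ℕ, B ⊂ A → ¬ ∃ N : ℕ, ∀ n ≥ N, ∃ a ∈ B, ∃ b ∈ B, a + b = n) ∧
      ∃ c : ℝ, c ≠ 0 ∧
        Tendsto (fun k : ℕ => (Nat.nth (· ∈ A) k : ℝ) / ((k : ℝ) + 1) ^ 2) atTop (𝓝 c) := by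
  obtain ⟨A, h1, h2, h3⟩ := construct
  refine ⟨A, ⟨16, h1⟩, ?_, 1 / 66 ^ 2, by norm_num, asym A CC h3 ?_⟩
  · rintro B' hB ⟨N, hN⟩
    obtain ⟨a, ha, haB⟩ := Set.exists_of_ssubset hB
    obtain ⟨M, hM, hU⟩ := h2 a ha N
    obtain ⟨x, hx, y, hy, hxy⟩ := hN M hM
    rcases hU x (hB.1 hx) y (hB.1 hy) hxy with h | h
    · exact haB (h ▸ hx)
    · exact haB (h ▸ hy)
  · apply Set.infinite_of_not_bddAbove
    rintro ⟨b, hb⟩
    obtain ⟨x, hx, y, hy, hxy⟩ := h1 (2 * b + 16) (by omega)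
    have := hb hx
    have := hb hy
    omega

end Pool.Agent.H.MP_7e9031_nt
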